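import Mathlib

/-!
A temperate frame that is not spatial.

Let `B` be the frame of regular open sets of the real line (the fixed elements of double negation on
`Opens ℝ`); it has no prime element. Add a new top element to `B`. The only prime element of the new
frame `L` is the old top, so its only Scott-open filters are `{⊤}` and `L`.
-/

open TopologicalSpace Set

namespace Pool.Agent.Results.MP_f10132_gt.NonSpatialTemperate

universe u v

section Defs

variable {L : Type u} [Order.Frame L]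

/-- A filter on a frame: a nonempty upwards-closed set in which any two elements have a lower
bound. -/
def IsFilter (F : Set L) : Prop :=
  F.Nonempty ∧ IsUpperSet F ∧ ∀ x ∈ F, ∀ y ∈ F, ∃ z ∈ F, z ≤ x ∧ z ≤ y

/-- Scott-open sets. -/
def ScottOpen (U : Set L) : Prop :=
  IsUpperSet U ∧
    ∀ D : Set L, D.Nonempty → DirectedOn (· ≤ ·) D → sSup D ∈ U → ∃ d ∈ D, d ∈ U

/-- The join of two filters. -/
def joinF (F G : Set L) : Set L := {w | ∃ a ∈ F, ∃ b ∈ G, w = a ⊓ b}

variable (L) in
/-- Locally temperate frames. -/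
def LocallyTemperate : Prop :=
  ∀ F G : Set L, IsFilter F → ScottOpen F → IsFilter G → ScottOpen G → ScottOpen (joinF F G)

variable (L) in
/-- Temperate frames. -/
def Temperate : Prop := LocallyTemperate L ∧ ScottOpen ({⊤} : Set L)

variable (L) in
/-- Spatial frames. -/
def Spatial : Prop :=
  ∃ (X : Type u) (_ : TopologicalSpace X), Nonempty (L ≃o Opens X)

/-- Prime elements. -/
def Prime (m : L) : Prop := m ≠ ⊤ ∧ ∀ x y : L, x ⊓ y ≤ m → x ≤ m ∨ y ≤ m

/-- If a Scott-open filter misses `w`, there is a prime element above `w` outside the filter. -/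
theorem exists_prime {F : Set L} (hF : IsFilter F) (hS : ScottOpen F) {w : L} (hw : w ∉ F) :
    ∃ m, w ≤ m ∧ m ∉ F ∧ Prime m := by
  obtain ⟨m, hm⟩ : ∃ m, w ≤ m ∧ Maximal (fun x => x ∉ F) m := by
    refine zorn_le_nonempty₀ {x | x ∉ F} ?_ w hw
    intro c hc hchain y hy
    refine ⟨sSup c, ?_, fun z hz => le_sSup hz⟩
    intro hmem
    obtain ⟨d, hd, hdF⟩ := hS.2 c ⟨y, hy⟩ hchain.directedOn hmem
    exact hc hd hdF
  obtain ⟨hwm, hmF, hmax⟩ := hm
  obtain ⟨⟨f0, hf0⟩, hup, hdir⟩ := hF
  refine ⟨m, hwm, hmF, ?_, ?_⟩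
  · rintro rfl
    exact hmF (hup le_top hf0)
  · intro x y hxy
    by_contra hcon
    push Not at hcon
    have key : ∀ z : L, ¬ z ≤ m → m ⊔ z ∈ F := by
      intro z hz
      by_contra hzF
      exact hz (le_sup_right.trans (hmax hzF le_sup_left))
    obtain ⟨t, htF, htx, hty⟩ := hdir _ (key x hcon.1) _ (key y hcon.2)
    have : t ≤ m := by
      have h1 : t ≤ (m ⊔ x) ⊓ (m ⊔ y) := le_inf htx hty
      rw [← sup_inf_left] at h1
      exact h1.trans (sup_le le_rfl hxy)
    exact hmF (hup this htF)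

end Defs

section AddTop

variable (B : Type u) [Order.Frame B]

/-- The frame `B` with a new top element, as a complete sublattice of `B × Prop`: the pairs `(b, p)`
such that `p` implies `b = ⊤`. -/
def addTopSub : CompleteSublattice (B × Prop) :=
  CompleteSublattice.mk' {x | x.2 → x.1 = ⊤}
    (by
      intro s hs
      simp only [Set.mem_ofPred_eq, Prod.fst_sSup, Prod.snd_sSup]
      intro h
      rw [sSup_Prop_eq] at h
      obtain ⟨p, ⟨x, hx, rfl⟩, hp⟩ := h
      have hx1 : x.1 = ⊤ := hs hx hp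
      rw [eq_top_iff, ← hx1]
      exact le_sSup ⟨x, hx, rfl⟩)
    (by
      intro s hs
      simp only [Set.mem_ofPred_eq, Prod.fst_sInf, Prod.snd_sInf]
      intro h
      rw [sInf_Prop_eq] at h
      rw [sInf_eq_top]
      rintro _ ⟨x, hx, rfl⟩
      exact hs hx (h _ ⟨x, hx, rfl⟩))

/-- The frame `B` with a new top element. -/
abbrev AddTop : Type u := addTopSub B

instance : Order.Frame (AddTop B) := .ofMinimalAxioms
  { inf_sSup_le_iSup_inf := by
      intro a s
      rw [← Subtype.coe_le_coe]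
      rw [show ((a ⊓ sSup s : AddTop B) : B × Prop) = (a : B × Prop) ⊓ ((sSup s : AddTop B) : B × Prop) from rfl]
      rw [CompleteSublattice.coe_sSup', inf_iSup₂_eq, CompleteSublattice.coe_iSup]
      refine iSup_mono fun b => ?_
      rw [CompleteSublattice.coe_iSup]
      exact iSup_mono fun hb => le_rfl }

variable {B}

theorem addTop_le_iff {x y : AddTop B} : x ≤ y ↔ x.1.1 ≤ y.1.1 ∧ (x.1.2 → y.1.2) := Iff.rfl

theorem addTop_fst_inf (x y : AddTop B) : (x ⊓ y).1.1 = x.1.1 ⊓ y.1.1 := rfl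

theorem addTop_snd_inf (x y : AddTop B) : (x ⊓ y).1.2 ↔ (x.1.2 ∧ y.1.2) := Iff.rfl

/-- The elements of `B` in the new frame. -/
def old (b : B) : AddTop B := ⟨(b, False), fun h => h.elim⟩

theorem addTop_eq_top_iff {x : AddTop B} : x = ⊤ ↔ x.1.2 := by
  constructor
  · rintro rfl
    exact trivial
  · intro h
    apply top_unique
    rw [addTop_le_iff]
    refine ⟨?_, fun _ => h⟩
    rw [x.2 h]
    exact le_top

theorem scottOpen_top : ScottOpen ({⊤} : Set (AddTop B)) := by
  refine ⟨?_, ?_⟩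
  · intro x y hxy hx
    rw [mem_singleton_iff] at hx ⊢
    exact top_unique (hx ▸ hxy)
  intro D hD hdir h
  rw [mem_singleton_iff, addTop_eq_top_iff] at h
  by_contra hcon
  push Not at hcon
  have hle : sSup D ≤ old (⊤ : B) := by
    refine sSup_le fun d hd => ?_
    rw [addTop_le_iff]
    refine ⟨le_top, fun h' => ?_⟩
    exact (hcon d hd (addTop_eq_top_iff.2 h')).elim
  exact (addTop_le_iff.1 hle).2 h

/-- The only prime element of the new frame is the old top. -/
theorem prime_addTop (hB : ∀ m : B, ¬ Prime m) {m : AddTop B} (hm : Prime m) :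
    m = old (⊤ : B) := by
  have hm2 : ¬ m.1.2 := fun h => hm.1 (addTop_eq_top_iff.2 h)
  have hm1 : m.1.1 = ⊤ := by
    by_contra hne
    refine hB m.1.1 ⟨hne, fun x y hxy => ?_⟩
    have := hm.2 (old x) (old y) (by
      rw [addTop_le_iff]
      exact ⟨hxy, fun h => h.1.elim⟩)
    rcases this with h | h
    · exact Or.inl (addTop_le_iff.1 h).1
    · exact Or.inr (addTop_le_iff.1 h).1
  apply le_antisymm
  · rw [addTop_le_iff]
    exact ⟨le_top, fun h => (hm2 h).elim⟩
  · rw [addTop_le_iff]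
    refine ⟨?_, fun h => h.elim⟩
    rw [hm1]
    exact le_top

/-- If `B` has no prime elements, then every Scott-open filter on the new frame is `{⊤}` or
everything. -/
theorem scottOpen_filter (hB : ∀ m : B, ¬ Prime m) {F : Set (AddTop B)} (hF : IsFilter F)
    (hS : ScottOpen F) : F = {⊤} ∨ F = univ := by
  by_cases h : F = univ
  · exact Or.inr h
  left
  obtain ⟨w, hw⟩ := (ne_univ_iff_exists_notMem F).1 h
  obtain ⟨m, hwm, hmF, hm⟩ := exists_prime hF hS hw
  rw [prime_addTop hB hm] at hmF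
  obtain ⟨⟨f0, hf0⟩, hup, -⟩ := hF
  ext x
  rw [mem_singleton_iff]
  constructor
  · intro hx
    rw [addTop_eq_top_iff]
    by_contra hx2
    refine hmF (hup ?_ hx)
    rw [addTop_le_iff]
    exact ⟨le_top, fun h => (hx2 h).elim⟩
  · rintro rfl
    exact hup le_top hf0

theorem isFilter_univ : IsFilter (univ : Set (AddTop B)) :=
  ⟨⟨⊤, trivial⟩, fun _ _ _ _ => trivial,
    fun x _ y _ => ⟨x ⊓ y, trivial, inf_le_left, inf_le_right⟩⟩

theorem scottOpen_univ : ScottOpen (univ : Set (AddTop B)) :=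
  ⟨fun _ _ _ _ => trivial, fun _ hD _ _ => ⟨hD.some, hD.some_mem, trivial⟩⟩

theorem temperate_addTop (hB : ∀ m : B, ¬ Prime m) : Temperate (AddTop B) := by
  refine ⟨?_, scottOpen_top⟩
  intro F G hF hFS hG hGS
  rcases scottOpen_filter hB hF hFS with rfl | rfl
  · rcases scottOpen_filter hB hG hGS with rfl | rfl
    · have : joinF ({⊤} : Set (AddTop B)) {⊤} = {⊤} := by
        ext x
        constructor
        · rintro ⟨a, ha, b, hb, rfl⟩
          rw [mem_singleton_iff] at ha hb ⊢
          rw [ha, hb, inf_top_eq]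
        · intro hx
          rw [mem_singleton_iff] at hx
          exact ⟨⊤, rfl, ⊤, rfl, by rw [hx, inf_top_eq]⟩
      rw [this]
      exact scottOpen_top
    · have : joinF ({⊤} : Set (AddTop B)) univ = univ :=
        eq_univ_of_forall fun x => ⟨⊤, rfl, x, trivial, by rw [top_inf_eq]⟩
      rw [this]
      exact scottOpen_univ
  · have htop : ⊤ ∈ G := hG.2.1 le_top hG.1.some_mem
    have : joinF (univ : Set (AddTop B)) G = univ :=
      eq_univ_of_forall fun x => ⟨x, trivial, ⊤, htop, by rw [inf_top_eq]⟩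
    rw [this]
    exact scottOpen_univ

/-- If `B` is nontrivial and has no prime elements, then the new frame is not spatial. -/
theorem not_spatial_addTop [Nontrivial B] (hB : ∀ m : B, ¬ Prime m) : ¬ Spatial (AddTop B) := by
  rintro ⟨X, tX, ⟨e⟩⟩
  have hne : e (old (⊤ : B)) ≠ e ⊥ := by
    intro h
    have h1 := congrArg (fun z : AddTop B => z.1.1) (e.injective h)
    exact top_ne_bot (h1 : (⊤ : B) = ⊥)
  have hnonempty : ∃ x, x ∈ e (old (⊤ : B)) := by
    by_contra hcon
    push Not at hcon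
    apply hne
    rw [map_bot]
    ext x
    simp [hcon x]
  obtain ⟨x, hx⟩ := hnonempty
  -- the prime element given by the complement of the closure of `x`
  let U : Opens X := ⟨(closure {x})ᶜ, isClosed_closure.isOpen_compl⟩
  have hU : ∀ V : Opens X, V ≤ U ↔ x ∉ V := by
    intro V
    constructor
    · intro h hxV
      exact h hxV (subset_closure rfl)
    · intro hxV y hyV hy
      have := mem_closure_iff.1 hy V V.isOpen hyV
      obtain ⟨z, hz1, hz2⟩ := this
      rw [mem_singleton_iff] at hz2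
      exact hxV (hz2 ▸ hz1)
  have hprime : Prime (e.symm U) := by
    constructor
    · intro h
      have : (⊤ : Opens X) ≤ U := by
        rw [← e.apply_symm_apply U, h, map_top]
      exact (hU ⊤).1 this trivial
    · intro a b hab
      have hab' : e (a ⊓ b) ≤ U := by
        rw [← e.apply_symm_apply U]
        exact e.monotone hab
      rw [map_inf] at hab'
      have := (hU _).1 hab'
      by_cases hxa : x ∈ e a
      · right
        have hxb : x ∉ e b := fun h => this ⟨hxa, h⟩
        rw [e.le_symm_apply]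
        exact (hU _).2 hxb
      · left
        rw [e.le_symm_apply]
        exact (hU _).2 hxa
  have h1 := prime_addTop hB hprime
  have h2 : e (old (⊤ : B)) ≤ U := by
    rw [← h1, e.apply_symm_apply]
  exact (hU _).1 h2 hx

end AddTop

/-! ### The regular open sets of the line -/

section RegularOpen

/-- Double negation on the open sets of the line: its fixed elements are the regular open sets. -/
def dn : Nucleus (Opens ℝ) where
  toFun U := Uᶜᶜ
  map_inf' U V := by simp [compl_compl_inf_distrib]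
  idempotent' U := by simp
  le_apply' U := le_compl_compl

/-- The frame of regular open sets of the line. -/
abbrev RO : Type := range dn

theorem ro_val (x : RO) : (x : Opens ℝ)ᶜᶜ = x := Nucleus.mem_range.1 x.2

theorem ro_coe_inf (x y : RO) : ((x ⊓ y : RO) : Opens ℝ) = (x : Opens ℝ) ⊓ (y : Opens ℝ) :=
  (Nucleus.giRestrict dn).gc.u_inf

theorem ro_coe_top : ((⊤ : RO) : Opens ℝ) = ⊤ := (Nucleus.giRestrict dn).gc.u_top

instance : Nontrivial RO := by
  refine ⟨⟨⟨⊤, ⟨⊤, ?_⟩⟩, ⟨⊥, ⟨⊥, ?_⟩⟩, ?_⟩⟩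
  · show (⊤ : Opens ℝ)ᶜᶜ = ⊤
    simp
  · show (⊥ : Opens ℝ)ᶜᶜ = ⊥
    simp
  · intro h
    have h1 : (⊤ : Opens ℝ) = ⊥ := congrArg Subtype.val h
    exact top_ne_bot h1

theorem no_prime (m : RO) : ¬ Prime m := by
  rintro ⟨hm, hprime⟩
  -- the complement of `m` is nonempty
  have hV : ((m : Opens ℝ)ᶜ : Opens ℝ) ≠ ⊥ := by
    intro h
    apply hm
    apply Subtype.ext
    rw [ro_coe_top, ← ro_val m, h, compl_bot]
  obtain ⟨p, hp⟩ : ∃ p, p ∈ ((m : Opens ℝ)ᶜ : Opens ℝ) := by
    by_contra hcon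
    push Not at hcon
    apply hV
    ext x
    simpa using hcon x
  obtain ⟨ε, hε, hball⟩ := Metric.isOpen_iff.1 ((m : Opens ℝ)ᶜ : Opens ℝ).isOpen p hp
  let P : Opens ℝ := ⟨Ioo (p - ε) p, isOpen_Ioo⟩
  let Q : Opens ℝ := ⟨Ioo p (p + ε), isOpen_Ioo⟩
  have hPV : P ≤ (m : Opens ℝ)ᶜ := by
    intro x hx
    apply hball
    rw [Metric.mem_ball, Real.dist_eq, abs_lt]
    exact ⟨by linarith [hx.1], by linarith [hx.2]⟩
  have hQV : Q ≤ (m : Opens ℝ)ᶜ := by
    intro x hx
    apply hball
    rw [Metric.mem_ball, Real.dist_eq, abs_lt]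
    exact ⟨by linarith [hx.1], by linarith [hx.2]⟩
  have hPQ : P ⊓ Q = ⊥ := by
    ext x
    constructor
    · rintro ⟨h1, h2⟩
      exact (lt_asymm h1.2 h2.1).elim
    · intro h
      exact h.elim
  have hnot : ∀ R : Opens ℝ, R ≤ (m : Opens ℝ)ᶜ → R ≠ ⊥ →
      ¬ ((⟨Rᶜᶜ, ⟨R, rfl⟩⟩ : RO) ≤ m) := by
    intro R hR hne hle
    apply hne
    have h1 : Rᶜᶜ ≤ (m : Opens ℝ) := hle
    have h2 : R ≤ (m : Opens ℝ) := le_compl_compl.trans h1
    have h3 : R ≤ (m : Opens ℝ) ⊓ (m : Opens ℝ)ᶜ := le_inf h2 hR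
    rw [inf_compl_self] at h3
    exact le_bot_iff.1 h3
  have hPne : P ≠ ⊥ := by
    intro h
    have : (p - ε / 2) ∈ P := ⟨by linarith, by linarith⟩
    rw [h] at this
    exact this
  have hQne : Q ≠ ⊥ := by
    intro h
    have : (p + ε / 2) ∈ Q := ⟨by linarith, by linarith⟩
    rw [h] at this
    exact this
  rcases hprime ⟨Pᶜᶜ, ⟨P, rfl⟩⟩ ⟨Qᶜᶜ, ⟨Q, rfl⟩⟩ (by
    rw [← Subtype.coe_le_coe, ro_coe_inf]
    show Pᶜᶜ ⊓ Qᶜᶜ ≤ (m : Opens ℝ)
    rw [← compl_compl_inf_distrib, hPQ]
    simp) with h | h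
  · exact hnot P hPV hPne h
  · exact hnot Q hQV hQne h

end RegularOpen

/-- There is a temperate frame that is not spatial. -/
theorem result : ∃ (L : Type) (_ : Order.Frame L), Temperate L ∧ ¬ Spatial L :=
  ⟨AddTop RO, inferInstance, temperate_addTop no_prime, not_spatial_addTop no_prime⟩

end Pool.Agent.Results.MP_f10132_gt.NonSpatialTemperate
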